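import Pool.Agent.Helper41.PC.POS

/-!
# PC, part GOOD: almost every configuration has points on all coordinate half lines
-/

set_option autoImplicit false

namespace Pool.Agent.Helper41.PC

open MeasureTheory ProbabilityTheory Filter Topology Pool.Agent.Helper51.PP

theorem iterate_shift {d : ℕ} (x : Fin d → ℤ) (n : ℕ) (ω : Conf d) :
    (shiftConf x : Conf d → Conf d)^[n] ω = shiftConf ((n : ℤ) • x) ω := by
  induction n with
  | zero => simp [shiftConf_zero]
  | succ n ih =>
    rw [Function.iterate_succ_apply', ih, shiftConf_shiftConf]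
    congr 1
    push_cast
    rw [add_smul, one_smul, add_comm]

/-- the shifts in all coordinate directions are ergodic -/
theorem ergodic_dir {d : ℕ} {Q : Measure (Conf d)} (hQ : IsPointProcess d Q)
    (e : Fin d × Bool) : Ergodic (shiftConf (dirVec e) : Conf d → Conf d) Q := by
  obtain ⟨i, b⟩ := e
  cases b with
  | true => exact hQ.ergodic i
  | false =>
    have he : dirVec ((i, false) : Fin d × Bool) = -Pi.single i 1 := rfl
    refine ⟨mp_shift hQ _, ⟨fun s hs hinv => ?_⟩⟩
    refine (hQ.ergodic i).toPreErgodic.aeconst_set hs ?_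
    rw [he] at hinv
    conv_lhs => rw [← hinv]
    rw [← Set.preimage_comp]
    have : (shiftConf (-Pi.single i 1) : Conf d → Conf d) ∘ shiftConf (Pi.single i 1) = id := by
      funext ω
      change shiftConf (-Pi.single i 1) (shiftConf (Pi.single i 1) ω) = ω
      rw [shiftConf_shiftConf, neg_add_cancel, shiftConf_zero]
    rw [this, Set.preimage_id]

theorem half_line {d : ℕ} {Q : Measure (Conf d)} (hQ : IsPointProcess d Q)
    (h0 : Q (Om0 d) ≠ 0) (e : Fin d × Bool) :
    ∀ᵐ ω ∂Q, ∃ k : ℕ, 1 ≤ k ∧ ω ((k : ℤ) • dirVec e) = true := by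
  have := hQ.prob
  have herg := ergodic_dir hQ e
  have hm := measurableSet_Om0 d
  -- recurrence
  have hrec := herg.toMeasurePreserving.conservative.ae_mem_imp_frequently_image_mem
    hm.nullMeasurableSet
  set B : Set (Conf d) := {ω | ∃ᶠ n in atTop, (shiftConf (dirVec e) : Conf d → Conf d)^[n] ω
    ∈ Om0 d} with hB
  have hBm : MeasurableSet B := by
    have : B = ⋂ N : ℕ, ⋃ n : ℕ, {ω | N ≤ n ∧ (shiftConf (dirVec e) : Conf d → Conf d)^[n] ω
        ∈ Om0 d} := by
      ext ω
      simp only [hB, Set.mem_ofPred_eq, frequently_atTop, Set.mem_iInter, Set.mem_iUnion,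
        exists_prop]
    rw [this]
    refine MeasurableSet.iInter fun N => MeasurableSet.iUnion fun n => ?_
    by_cases hN : N ≤ n
    · simp only [hN, true_and]
      exact ((measurable_shiftConf (dirVec e)).iterate n) hm
    · simp only [hN, false_and]
      exact MeasurableSet.empty
  have hBi : (shiftConf (dirVec e) : Conf d → Conf d) ⁻¹' B = B := by
    ext ω
    simp only [hB, Set.mem_preimage, Set.mem_ofPred_eq, frequently_atTop]
    constructor
    · intro h N
      obtain ⟨n, hn, h1⟩ := h N
      exact ⟨n + 1, by omega, h1⟩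
    · intro h N
      obtain ⟨n, hn, h1⟩ := h (N + 1)
      refine ⟨n - 1, by omega, ?_⟩
      have : n = (n - 1) + 1 := by omega
      rw [this, Function.iterate_succ_apply] at h1
      exact h1
  rcases herg.toPreErgodic.ae_mem_or_ae_notMem hBm hBi with h | h
  · filter_upwards [h] with ω hω
    obtain ⟨n, hn, h1⟩ := (frequently_atTop.1 hω) 1
    refine ⟨n, hn, ?_⟩
    rw [iterate_shift] at h1
    have h2 : ω ((n : ℤ) • dirVec e + 0) = true := h1
    rwa [add_zero] at h2
  · exfalso
    apply h0
    have h3 : ∀ᵐ ω ∂Q, ω ∉ Om0 d := by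
      filter_upwards [h, hrec] with ω h1 h2 h3
      exact h1 (h2 h3)
    exact measure_eq_zero_iff_ae_notMem.2 h3

theorem GOOD.main (hPOS : S_POS) : S_GOOD := by
  intro d Q hQ
  have h0 := hPOS d Q hQ
  have : ∀ᵐ ω ∂Q, ∀ (v : Fin d → ℤ) (e : Fin d × Bool),
      ∃ k : ℕ, 1 ≤ k ∧ ω (v + (k : ℤ) • dirVec e) = true := by
    rw [ae_all_iff]
    intro v
    rw [ae_all_iff]
    intro e
    exact (mp_shift hQ v).quasiMeasurePreserving.ae (half_line hQ h0 e)
  filter_upwards [this] with ω hω
  exact hω

end Pool.Agent.Helper41.PC
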