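import Pool.Agent.Helper51.PP.Spec

/-!
# PC, part POS: the origin is occupied with positive probability
-/

set_option autoImplicit false

namespace Pool.Agent.Helper41.PC

open MeasureTheory ProbabilityTheory Filter Topology Pool.Agent.Helper51.PP

theorem measurable_shiftConf {d : ℕ} (x : Fin d → ℤ) :
    Measurable (shiftConf x : Conf d → Conf d) :=
  measurable_pi_lambda _ fun y => measurable_pi_apply (x + y)

theorem shiftConf_shiftConf {d : ℕ} (x y : Fin d → ℤ) (ω : Conf d) :
    shiftConf x (shiftConf y ω) = shiftConf (x + y) ω := by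
  funext z
  change ω (y + (x + z)) = ω (x + y + z)
  congr 1
  abel

theorem shiftConf_zero {d : ℕ} (ω : Conf d) : shiftConf 0 ω = ω := by
  funext z
  change ω (0 + z) = ω z
  rw [zero_add]

/-- the shifts as measurable equivalences -/
def shiftEquiv {d : ℕ} (x : Fin d → ℤ) : Conf d ≃ᵐ Conf d where
  toFun := shiftConf x
  invFun := shiftConf (-x)
  left_inv ω := by rw [shiftConf_shiftConf, neg_add_cancel, shiftConf_zero]
  right_inv ω := by rw [shiftConf_shiftConf, add_neg_cancel, shiftConf_zero]
  measurable_toFun := measurable_shiftConf x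
  measurable_invFun := measurable_shiftConf (-x)

/-- all shifts preserve the measure -/
theorem mp_shift {d : ℕ} {Q : Measure (Conf d)} (hQ : IsPointProcess d Q) (x : Fin d → ℤ) :
    MeasurePreserving (shiftConf x : Conf d → Conf d) Q Q := by
  let S : AddSubgroup (Fin d → ℤ) :=
    { carrier := {x | MeasurePreserving (shiftConf x : Conf d → Conf d) Q Q}
      add_mem' := by
        intro a b ha hb
        have h : MeasurePreserving ((shiftConf a : Conf d → Conf d) ∘ shiftConf b) Q Q :=
          MeasurePreserving.comp ha hb
        have e : (shiftConf a : Conf d → Conf d) ∘ shiftConf b = shiftConf (a + b) := by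
          funext ω
          exact shiftConf_shiftConf a b ω
        rw [e] at h
        exact h
      zero_mem' := by
        have e : (shiftConf 0 : Conf d → Conf d) = id := by
          funext ω
          exact shiftConf_zero ω
        change MeasurePreserving (shiftConf 0 : Conf d → Conf d) Q Q
        rw [e]
        exact MeasurePreserving.id Q
      neg_mem' := by
        intro a ha
        have ha' : MeasurePreserving (shiftEquiv a) Q Q := ha
        exact ha'.symm (shiftEquiv a) }
  have h1 : ∀ i : Fin d, (Pi.single i 1 : Fin d → ℤ) ∈ S := fun i =>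
    (hQ.ergodic i).toMeasurePreserving
  have h2 : x = ∑ i, x i • (Pi.single i 1 : Fin d → ℤ) := by
    funext j
    simp [Finset.sum_apply, Pi.single_apply]
  have h3 : x ∈ S := by
    rw [h2]
    exact S.sum_mem fun i _ => S.zsmul_mem (h1 i) _
  exact h3

theorem measurableSet_Om0 (d : ℕ) : MeasurableSet (Om0 d) := by
  have : Om0 d = (fun ω : Conf d => ω 0) ⁻¹' {true} := rfl
  rw [this]
  exact (measurable_pi_apply (0 : Fin d → ℤ)) (measurableSet_singleton _)

theorem measurableSet_occ {d : ℕ} (x : Fin d → ℤ) :
    MeasurableSet {ω : Conf d | ω x = true} := by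
  have : {ω : Conf d | ω x = true} = (fun ω : Conf d => ω x) ⁻¹' {true} := rfl
  rw [this]
  exact (measurable_pi_apply x) (measurableSet_singleton _)

theorem occ_measure {d : ℕ} {Q : Measure (Conf d)} (hQ : IsPointProcess d Q) (x : Fin d → ℤ) :
    Q {ω | ω x = true} = Q (Om0 d) := by
  have h := (mp_shift hQ x).measure_preimage (measurableSet_Om0 d).nullMeasurableSet
  rw [← h]
  congr 1
  ext ω
  change ω x = true ↔ ω (x + 0) = true
  rw [add_zero]

theorem POS.main : S_POS := by
  intro d Q hQ h0
  have := hQ.prob
  have h1 : Q (⋃ x : Fin d → ℤ, {ω : Conf d | ω x = true}) = 0 := by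
    rw [measure_iUnion_null_iff]
    intro x
    rw [occ_measure hQ x, h0]
  have h2 : {ω : Conf d | ∀ x, ω x = false} = (⋃ x : Fin d → ℤ, {ω : Conf d | ω x = true})ᶜ := by
    ext ω
    simp
  have h3 : Q {ω : Conf d | ∀ x, ω x = false} = 1 := by
    have hm : MeasurableSet (⋃ x : Fin d → ℤ, {ω : Conf d | ω x = true}) :=
      MeasurableSet.iUnion fun x => measurableSet_occ x
    rw [h2, prob_compl_eq_one_iff hm]
    exact h1
  exact absurd hQ.nontrivial (by rw [h3]; exact lt_irrefl _)

end Pool.Agent.Helper41.PC
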